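import Pool.Agent.N718.GC.Stm

/-!
Project GC (helper718), part KCH (helper971): change of the symbols.
-/

set_option autoImplicit false

namespace Pool.Agent.N971.GC

open Finset Pool.Agent.N718.GC

theorem vlt {p k : ℕ} (hp : p.Prime) {F : ℤ} (hF : ¬ (p : ℤ) ^ k ∣ F) :
    F.natAbs ≠ 0 ∧ padicValNat p F.natAbs < k := by
  have := Fact.mk hp
  have hF0 : F.natAbs ≠ 0 := by
    rw [Int.natAbs_ne_zero]
    rintro rfl
    exact hF (dvd_zero _)
  refine ⟨hF0, ?_⟩
  by_contra hcon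
  apply hF
  have h4 := (padicValNat_dvd_iff_le hF0).2 (not_lt.1 hcon)
  rw [← Int.natCast_dvd] at h4
  exact_mod_cast h4

theorem val_eq {p k : ℕ} (hp : p.Prime) {F G : ℤ} (h : (p : ℤ) ^ k ∣ G - F)
    (hF : ¬ (p : ℤ) ^ k ∣ F) : padicValNat p G.natAbs = padicValNat p F.natAbs := by
  have := Fact.mk hp
  have hG : ¬ (p : ℤ) ^ k ∣ G := fun h1 => hF (by
    have h2 := dvd_sub h1 h
    rwa [sub_sub_cancel] at h2)
  obtain ⟨hF0, hFk⟩ := vlt hp hF
  obtain ⟨hG0, hGk⟩ := vlt hp hG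
  have key : ∀ j, j ≤ k → (p ^ j ∣ G.natAbs ↔ p ^ j ∣ F.natAbs) := by
    intro j hj
    rw [← Int.natCast_dvd, ← Int.natCast_dvd]
    push_cast
    have h2 : (p : ℤ) ^ j ∣ G - F := (pow_dvd_pow _ hj).trans h
    constructor
    · intro h3
      have h4 := dvd_sub h3 h2
      rwa [sub_sub_cancel] at h4
    · intro h3
      have h4 := dvd_add h2 h3
      rwa [sub_add_cancel] at h4
  apply le_antisymm
  · rw [← padicValNat_dvd_iff_le hF0, ← key _ hGk.le]
    exact pow_padicValNat_dvd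
  · rw [← padicValNat_dvd_iff_le hG0, key _ hFk.le]
    exact pow_padicValNat_dvd

theorem iter (h : S_KAP) {M' k : ℕ} {a G : ℤ} (hG : G ≠ 0) (D : Finset ℕ)
    (hD : ∀ l ∈ D, l.Prime ∧ ¬ l ∣ M') (hk : ∀ l ∈ D, 1 ≤ k) :
    kap M' a G = (∏ l ∈ D, jacobiSym a l ^ padicValNat l G.natAbs) *
      kap (M' * ∏ l ∈ D, l ^ k) a G := by
  classical
  induction D using Finset.induction_on with
  | empty => simp
  | insert l D hl ih =>
    rw [ih (fun l' hl' => hD l' (Finset.mem_insert_of_mem hl'))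
      (fun l' hl' => hk l' (Finset.mem_insert_of_mem hl'))]
    have hlp := hD l (Finset.mem_insert_self l D)
    have h1 : ¬ l ∣ M' * ∏ l ∈ D, l ^ k := by
      rw [hlp.1.dvd_mul, Prime.dvd_finsetProd_iff hlp.1.prime]
      rintro (h2 | ⟨l', hl', h2⟩)
      · exact hlp.2 h2
      · have h3 := hlp.1.dvd_of_dvd_pow h2
        have h4 := (Nat.prime_dvd_prime_iff_eq hlp.1
          (hD l' (Finset.mem_insert_of_mem hl')).1).1 h3
        exact hl (h4 ▸ hl')
    have e : (M' * ∏ x ∈ D, x ^ k) * l ^ k = M' * (l ^ k * ∏ x ∈ D, x ^ k) := by ring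
    rw [h.2.1 _ l k a G hlp.1 h1 (hk l (Finset.mem_insert_self l D)) hG, e,
      Finset.prod_insert hl, Finset.prod_insert hl]
    ring

theorem kch_ (h : S_KAP) : S_KCH := by
  intro M' D k a s F F' ha hC hD hs hFF hp hl
  obtain ⟨M, hM⟩ : ∃ M, M = M' * ∏ l ∈ D, l ^ k := ⟨_, rfl⟩
  have hk : ∀ l ∈ D, 1 ≤ k := by
    intro l hlD
    by_contra hcon
    have h0 : k = 0 := by omega
    apply (hl l hlD).1
    rw [h0, pow_zero]
    exact one_dvd _
  have hM0 : 0 < M := by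
    rw [hM]
    exact Nat.mul_pos hC.1 (Finset.prod_pos fun l hlD => pow_pos (hD l hlD).1.pos _)
  have hM'M : M' ∣ M := ⟨_, hM⟩
  have hlM : ∀ l ∈ D, (l : ℤ) ^ k ∣ (M : ℤ) := by
    intro l hlD
    have h1 : l ^ k ∣ M := by
      rw [hM]
      exact (Finset.dvd_prod_of_mem (fun l => l ^ k) hlD).mul_left _
    exact_mod_cast h1
  rw [← hM]
  unfold kps
  have hs1 : s * s = 1 := by rcases hs with rfl | rfl <;> norm_num
  have hpos : ∀ x : ℤ, 0 < s * (x + s * (M * (|x| + 1))) := by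
    intro x
    have h1 : s * (x + s * (M * (|x| + 1))) = s * x + M * (|x| + 1) := by
      rw [mul_add, ← mul_assoc, hs1, one_mul]
    rw [h1]
    have h2 : -|x| ≤ s * x := by
      rcases hs with rfl | rfl
      · rw [one_mul]
        exact neg_abs_le x
      · rw [neg_one_mul]
        exact neg_le_neg (le_abs_self x)
    have h3 : (1 : ℤ) ≤ M := by exact_mod_cast hM0
    nlinarith [abs_nonneg x]
  obtain ⟨G, hG⟩ : ∃ G, G = F + s * (M * (|F| + 1)) := ⟨_, rfl⟩
  obtain ⟨G', hG'⟩ : ∃ G', G' = F' + s * (M * (|F'| + 1)) := ⟨_, rfl⟩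
  have hGp := hpos F
  have hGp' := hpos F'
  rw [← hG] at hGp
  rw [← hG'] at hGp'
  rw [← hG, ← hG']
  have hGne : G ≠ 0 := by
    intro h0
    rw [h0, mul_zero] at hGp
    exact lt_irrefl _ hGp
  have hGne' : G' ≠ 0 := by
    intro h0
    rw [h0, mul_zero] at hGp'
    exact lt_irrefl _ hGp'
  have hGF : (M : ℤ) ∣ G - F := ⟨s * (|F| + 1), by rw [hG]; ring⟩
  have hGF' : (M : ℤ) ∣ G' - F' := ⟨s * (|F'| + 1), by rw [hG']; ring⟩
  have hMM : (M' : ℤ) ∣ M := by exact_mod_cast hM'M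
  have hGG : (M' : ℤ) ∣ G - G' := by
    have h1 := dvd_sub (dvd_add (hMM.trans hGF) hFF) (hMM.trans hGF')
    have h2 : G - F + (F - F') - (G' - F') = G - G' := by ring
    rwa [h2] at h1
  have hGG0 : 0 < G * G' := by
    have h1 := mul_pos hGp hGp'
    have h2 : s * G * (s * G') = s * s * (G * G') := by ring
    rwa [h2, hs1, one_mul] at h1
  have h1 := h.1 M' a ha hC G G' hGG0 hGG (by
    intro p hpp hpM
    obtain ⟨h2, h3⟩ := hp p hpp hpM
    refine ⟨h2, fun h4 => h3 ?_⟩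
    have h5 : (p : ℤ) ^ (padicValNat p M' - padicValNat p (4 * a.natAbs)) ∣ G - F := by
      refine Dvd.dvd.trans ?_ (hMM.trans hGF)
      have h6 : p ^ (padicValNat p M' - padicValNat p (4 * a.natAbs)) ∣ M' :=
        (pow_dvd_pow p (Nat.sub_le _ _)).trans pow_padicValNat_dvd
      exact_mod_cast h6
    have h7 := dvd_sub h4 h5
    rwa [sub_sub_cancel] at h7)
  rw [iter h hGne D hD hk, iter h hGne' D hD hk, ← hM] at h1
  have h2 : ∏ l ∈ D, jacobiSym a l ^ padicValNat l F.natAbs =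
      ∏ l ∈ D, jacobiSym a l ^ padicValNat l G.natAbs := by
    refine Finset.prod_congr rfl fun l hlD => ?_
    rw [val_eq (hD l hlD).1 ((hlM l hlD).trans hGF) (hl l hlD).1]
  have h3 : ∏ l ∈ D, jacobiSym a l ^ padicValNat l F'.natAbs =
      ∏ l ∈ D, jacobiSym a l ^ padicValNat l G'.natAbs := by
    refine Finset.prod_congr rfl fun l hlD => ?_
    rw [val_eq (hD l hlD).1 ((hlM l hlD).trans hGF') (hl l hlD).2]
  rw [h2, h3, mul_comm, h1, mul_comm]

end Pool.Agent.N971.GC
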